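import Mathlib

/-! Cyclic orderings of pairs of bases and 2-sums. -/

set_option autoImplicit false

namespace Pool.Agent.H90.GB

open Set

variable {α : Type*}

/-- the set of the elements of a list -/
def st (l : List α) : Set α := {x | x ∈ l}

/-- a list of pairs gives a cyclic ordering -/
def GOrd (M : Matroid α) (z : List (α × α)) : Prop :=
  ∀ s t, z = s ++ t → M.IsBase (st (t.map Prod.fst ++ s.map Prod.snd)) ∧
    M.IsBase (st (t.map Prod.snd ++ s.map Prod.fst))

/-- the pair of bases has a cyclic ordering (in terms of lists of pairs) -/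
def GP (M : Matroid α) (B B' : Set α) : Prop :=
  ∃ z : List (α × α), (z.map Prod.fst).Nodup ∧ (z.map Prod.snd).Nodup ∧
    st (z.map Prod.fst) = B ∧ st (z.map Prod.snd) = B' ∧ GOrd M z

theorem ncard_st_le [DecidableEq α] (l : List α) : (st l).ncard ≤ l.length := by
  have : st l = (l.toFinset : Set α) := by
    ext x; simp [st]
  rw [this, Set.ncard_coe_finset]
  exact List.toFinset_card_le l

theorem nodup_of_ncard [DecidableEq α] (l : List α) (h : (st l).ncard = l.length) : l.Nodup := by
  have : st l = (l.toFinset : Set α) := by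
    ext x; simp [st]
  rw [this, Set.ncard_coe_finset] at h
  have h2 := (Multiset.toFinset_card_eq_card_iff_nodup (m := (l : Multiset α))).1
    (by simpa using h)
  simpa using h2

theorem ncard_of_nodup [DecidableEq α] (l : List α) (h : l.Nodup) : (st l).ncard = l.length := by
  have : st l = (l.toFinset : Set α) := by
    ext x; simp [st]
  rw [this, Set.ncard_coe_finset]
  exact List.toFinset_card_of_nodup h

/-- all windows are nodup -/
theorem GOrd.nodup {M : Matroid α} {z : List (α × α)} (h : GOrd M z)
    (hz : (z.map Prod.fst).Nodup) (s t : List (α × α)) (hst : z = s ++ t) :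
    (t.map Prod.fst ++ s.map Prod.snd).Nodup ∧ (t.map Prod.snd ++ s.map Prod.fst).Nodup := by
  classical
  have h0 := (h [] z rfl).1
  have h1 := h s t hst
  have hc : (st (z.map Prod.fst ++ ([] : List (α × α)).map Prod.snd)).ncard = z.length := by
    rw [List.map_nil, List.append_nil, ncard_of_nodup _ hz, List.length_map]
  constructor
  · apply nodup_of_ncard
    rw [h1.1.ncard_eq_ncard_of_isBase h0, hc, hst]
    simp [add_comm]
  · apply nodup_of_ncard
    rw [h1.2.ncard_eq_ncard_of_isBase h0, hc, hst]
    simp [add_comm]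

/-- a common element stands in one pair -/
theorem GOrd.common {M : Matroid α} {z : List (α × α)} (h : GOrd M z)
    (hz : (z.map Prod.fst).Nodup) {p : α} (h1 : p ∈ st (z.map Prod.fst))
    (h2 : p ∈ st (z.map Prod.snd)) : ∃ y w, z = y ++ (p, p) :: w := by
  simp only [st, mem_ofPred_eq, List.mem_map] at h1 h2
  obtain ⟨⟨p1, b⟩, hb, rfl⟩ := h1
  obtain ⟨⟨a, p2⟩, ha, hp⟩ := h2
  simp only at hp
  subst hp
  obtain ⟨y, w, rfl⟩ := List.append_of_mem hb
  rw [List.mem_append, List.mem_cons] at ha
  rcases ha with ha | ha | ha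
  · -- (a, p) before (p, b)
    exfalso
    obtain ⟨y1, y2, rfl⟩ := List.append_of_mem ha
    have hn := (h.nodup hz (y1 ++ [(a, p2)]) (y2 ++ (p2, b) :: w) (by simp)).1
    simp only [List.map_append, List.map_cons, List.map_nil] at hn
    rw [List.nodup_append] at hn
    exact hn.2.2 p2 (by simp) p2 (by simp) rfl
  · rw [Prod.mk.injEq] at ha
    obtain ⟨rfl, rfl⟩ := ha
    exact ⟨y, w, rfl⟩
  · exfalso
    obtain ⟨w1, w2, rfl⟩ := List.append_of_mem ha
    have hn := (h.nodup hz (y ++ [(p2, b)]) (w1 ++ (a, p2) :: w2) (by simp)).2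
    simp only [List.map_append, List.map_cons, List.map_nil] at hn
    rw [List.nodup_append] at hn
    exact hn.2.2 p2 (by simp) p2 (by simp) rfl

end Pool.Agent.H90.GB
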