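import Pool.Agent.H90.GB.Two

/-! Cyclic orderings and 2-sums: bases of different types. -/

set_option autoImplicit false

namespace Pool.Agent.H90.GB

open Set

variable {α : Type*}

/-- the pairs of bases of opposite types -/
theorem opp_type {M₁ M₂ M : Matroid α} {p : α} (h : TwoSum M₁ M₂ M p)
    (h1 : ∀ B B', M₁.IsBase B → M₁.IsBase B' → GP M₁ B B')
    (h2 : ∀ B B', M₂.IsBase B → M₂.IsBase B' → GP M₂ B B') {A₁ A₂ A₁' A₂' : Set α}
    (hA₁ : M₁.IsBase A₁) (hA₂ : M₂.IsBase A₂) (hA₁' : M₁.IsBase A₁') (hA₂' : M₂.IsBase A₂')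
    (hp : p ∉ A₁) (hp2 : p ∈ A₂) (hp' : p ∈ A₁') (hp2' : p ∉ A₂') :
    GP M ((A₁ ∪ A₂) \ {p}) ((A₁' ∪ A₂') \ {p}) := by
  classical
  obtain ⟨z, hz1, hz2, rfl, rfl, hzG⟩ := h1 _ _ hA₁ hA₁'
  obtain ⟨w, hw1, hw2, rfl, rfl, hwG⟩ := h2 _ _ hA₂ hA₂'
  obtain ⟨⟨a, p1⟩, hap, hpe⟩ := List.mem_map.1 (show p ∈ z.map Prod.snd from hp')
  obtain ⟨⟨p2, b⟩, hbp, hpe2⟩ := List.mem_map.1 (show p ∈ w.map Prod.fst from hp2)
  simp only at hpe hpe2
  rw [hpe] at hap
  rw [hpe2] at hbp
  clear hpe hpe2 p1 p2
  obtain ⟨y1, u1, rfl⟩ := List.append_of_mem hap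
  obtain ⟨y2, u2, rfl⟩ := List.append_of_mem hbp
  have hd : ∀ x, x ∈ M₁.E → x ∈ M₂.E → x = p := by
    intro x hx hx'
    have : x ∈ M₁.E ∩ M₂.E := ⟨hx, hx'⟩
    rwa [h.1] at this
  have e1 : ∀ x, x ∈ y1.map Prod.fst ++ a :: u1.map Prod.fst → x ∈ M₁.E :=
    fun x hx => hA₁.subset_ground (by simpa [st] using hx)
  have e2 : ∀ x, x ∈ y1.map Prod.snd ++ p :: u1.map Prod.snd → x ∈ M₁.E :=
    fun x hx => hA₁'.subset_ground (by simpa [st] using hx)
  have e3 : ∀ x, x ∈ y2.map Prod.fst ++ p :: u2.map Prod.fst → x ∈ M₂.E :=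
    fun x hx => hA₂.subset_ground (by simpa [st] using hx)
  have e4 : ∀ x, x ∈ y2.map Prod.snd ++ b :: u2.map Prod.snd → x ∈ M₂.E :=
    fun x hx => hA₂'.subset_ground (by simpa [st] using hx)
  simp only [List.map_append, List.map_cons] at hz1 hz2 hw1 hw2
  have hz2' := hz2
  have hw1' := hw1
  rw [List.nodup_append, List.nodup_cons] at hz2' hw1'
  have n1 : p ∉ y1.map Prod.fst ++ a :: u1.map Prod.fst := by
    intro hx; exact hp (by simpa [st] using hx)
  have n2 : p ∉ y2.map Prod.snd ++ b :: u2.map Prod.snd := by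
    intro hx; exact hp2' (by simpa [st] using hx)
  rw [List.mem_append, List.mem_cons, not_or, not_or] at n1 n2
  obtain ⟨n11, n12, n13⟩ := n1
  obtain ⟨n21, n22, n23⟩ := n2
  have n3 : p ∉ y1.map Prod.snd := fun hx => hz2'.2.2 p hx p (by simp) rfl
  have n4 : p ∉ u1.map Prod.snd := hz2'.2.1.1
  have n5 : p ∉ y2.map Prod.fst := fun hx => hw1'.2.2 p hx p (by simp) rfl
  have n6 : p ∉ u2.map Prod.fst := hw1'.2.1.1
  have ne : ∀ {l : List α} {x : α}, p ∉ l → x ∈ l → x ≠ p := fun hl hx e => hl (e ▸ hx)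
  refine ⟨y1 ++ (y2 ++ (a, b) :: (u1 ++ u2)), ?_, ?_, ?_, ?_, ?_⟩
  · simp only [List.map_append, List.map_cons]
    have hperm : (y1.map Prod.fst ++ (y2.map Prod.fst ++ a :: (u1.map Prod.fst ++
        u2.map Prod.fst))).Perm ((y1.map Prod.fst ++ a :: u1.map Prod.fst) ++
        (y2.map Prod.fst ++ u2.map Prod.fst)) := by
      rw [List.perm_iff_count]
      intro x
      simp only [List.count_append, List.count_cons]
      omega
    rw [hperm.nodup_iff, List.nodup_append]
    refine ⟨hz1, List.nodup_append.2 ⟨hw1'.1, hw1'.2.1.2, fun a ha b hb => hw1'.2.2 a ha b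
      (List.mem_cons_of_mem _ hb)⟩, ?_⟩
    rintro x hx x' hx' rfl
    have h5 : x ∈ y2.map Prod.fst ++ p :: u2.map Prod.fst := by
      rw [List.mem_append] at hx'
      rw [List.mem_append, List.mem_cons]
      rcases hx' with hx' | hx'
      · exact Or.inl hx'
      · exact Or.inr (Or.inr hx')
    have h6 := hd x (e1 x hx) (e3 x h5)
    rw [List.mem_append] at hx'
    rcases hx' with hx' | hx'
    · exact ne n5 hx' h6
    · exact ne n6 hx' h6
  · simp only [List.map_append, List.map_cons]
    have hperm : (y1.map Prod.snd ++ (y2.map Prod.snd ++ b :: (u1.map Prod.snd ++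
        u2.map Prod.snd))).Perm ((y1.map Prod.snd ++ u1.map Prod.snd) ++
        (y2.map Prod.snd ++ b :: u2.map Prod.snd)) := by
      rw [List.perm_iff_count]
      intro x
      simp only [List.count_append, List.count_cons]
      omega
    rw [hperm.nodup_iff, List.nodup_append, List.nodup_append]
    refine ⟨⟨hz2'.1, hz2'.2.1.2, fun a ha b hb => hz2'.2.2 a ha b
      (List.mem_cons_of_mem _ hb)⟩, hw2, ?_⟩
    rintro x hx x' hx' rfl
    have h5 : x ∈ y1.map Prod.snd ++ p :: u1.map Prod.snd := by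
      rw [List.mem_append] at hx
      rw [List.mem_append, List.mem_cons]
      rcases hx with hx | hx
      · exact Or.inl hx
      · exact Or.inr (Or.inr hx)
    have h6 := hd x (e2 x h5) (e4 x hx')
    rw [List.mem_append] at hx
    rcases hx with hx | hx
    · exact ne n3 hx h6
    · exact ne n4 hx h6
  · ext x
    simp only [st, List.map_append, List.map_cons, mem_ofPred_eq, mem_sdiff, mem_union,
      mem_singleton_iff, List.mem_append, List.mem_cons]
    constructor
    · rintro (hx | hx | hx | hx | hx)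
      · exact ⟨Or.inl (Or.inl hx), ne n11 hx⟩
      · exact ⟨Or.inr (Or.inl hx), ne n5 hx⟩
      · exact ⟨Or.inl (Or.inr (Or.inl hx)), fun e => n12 (e.symm.trans hx)⟩
      · exact ⟨Or.inl (Or.inr (Or.inr hx)), ne n13 hx⟩
      · exact ⟨Or.inr (Or.inr (Or.inr hx)), ne n6 hx⟩
    · rintro ⟨(hx | hx | hx) | (hx | hx | hx), hne⟩
      · exact Or.inl hx
      · exact Or.inr (Or.inr (Or.inl hx))
      · exact Or.inr (Or.inr (Or.inr (Or.inl hx)))
      · exact Or.inr (Or.inl hx)
      · exact absurd hx hne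
      · exact Or.inr (Or.inr (Or.inr (Or.inr hx)))
  · ext x
    simp only [st, List.map_append, List.map_cons, mem_ofPred_eq, mem_sdiff, mem_union,
      mem_singleton_iff, List.mem_append, List.mem_cons]
    constructor
    · rintro (hx | hx | hx | hx | hx)
      · exact ⟨Or.inl (Or.inl hx), ne n3 hx⟩
      · exact ⟨Or.inr (Or.inl hx), ne n21 hx⟩
      · exact ⟨Or.inr (Or.inr (Or.inl hx)), fun e => n22 (e.symm.trans hx)⟩
      · exact ⟨Or.inl (Or.inr (Or.inr hx)), ne n4 hx⟩
      · exact ⟨Or.inr (Or.inr (Or.inr hx)), ne n23 hx⟩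
    · rintro ⟨(hx | hx | hx) | (hx | hx | hx), hne⟩
      · exact Or.inl hx
      · exact absurd hx hne
      · exact Or.inr (Or.inr (Or.inr (Or.inl hx)))
      · exact Or.inr (Or.inl hx)
      · exact Or.inr (Or.inr (Or.inl hx))
      · exact Or.inr (Or.inr (Or.inr (Or.inr hx)))
  · intro s t hst
    have main : ∀ (z1 z2 w1 w2 : List (α × α)), y1 ++ (a, p) :: u1 = z1 ++ z2 →
        y2 ++ (p, b) :: u2 = w1 ++ w2 →
        ((p ∈ z2.map Prod.snd ∧ p ∈ w2.map Prod.fst ∧ p ∉ z1.map Prod.snd ∧
          p ∉ w1.map Prod.fst) ∨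
         (p ∈ z1.map Prod.snd ∧ p ∈ w1.map Prod.fst ∧ p ∉ z2.map Prod.snd ∧
          p ∉ w2.map Prod.fst)) →
        (∀ x, x ∈ t.map Prod.fst ↔ (x ∈ z2.map Prod.fst ∨ x ∈ w2.map Prod.fst) ∧ x ≠ p) →
        (∀ x, x ∈ t.map Prod.snd ↔ (x ∈ z2.map Prod.snd ∨ x ∈ w2.map Prod.snd) ∧ x ≠ p) →
        (∀ x, x ∈ s.map Prod.fst ↔ (x ∈ z1.map Prod.fst ∨ x ∈ w1.map Prod.fst) ∧ x ≠ p) →
        (∀ x, x ∈ s.map Prod.snd ↔ (x ∈ z1.map Prod.snd ∨ x ∈ w1.map Prod.snd) ∧ x ≠ p) →
        M.IsBase (st (t.map Prod.fst ++ s.map Prod.snd)) ∧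
        M.IsBase (st (t.map Prod.snd ++ s.map Prod.fst)) := by
      intro z1 z2 w1 w2 hz hw hpp t1 t2 s1 s2
      have g1 := hzG z1 z2 hz
      have g2 := hwG w1 w2 hw
      have q1 : p ∉ z1.map Prod.fst ∧ p ∉ z2.map Prod.fst := by
        have : p ∉ (z1 ++ z2).map Prod.fst := by
          rw [← hz]
          simp only [List.map_append, List.map_cons, List.mem_append, List.mem_cons, not_or]
          exact ⟨n11, n12, n13⟩
        rw [List.map_append, List.mem_append, not_or] at this
        exact this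
      have q2 : p ∉ w1.map Prod.snd ∧ p ∉ w2.map Prod.snd := by
        have : p ∉ (w1 ++ w2).map Prod.snd := by
          rw [← hw]
          simp only [List.map_append, List.map_cons, List.mem_append, List.mem_cons, not_or]
          exact ⟨n21, n22, n23⟩
        rw [List.map_append, List.mem_append, not_or] at this
        exact this
      refine ⟨h.mk g1.1 g2.1 ?_ fun x => ?_, h.mk g1.2 g2.2 ?_ fun x => ?_⟩
      · rw [List.mem_append, List.mem_append]
        rcases hpp with ⟨k1, k2, k3, k4⟩ | ⟨k1, k2, k3, k4⟩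
        · exact ⟨fun hx => absurd hx (by rw [not_or]; exact ⟨q1.2, k3⟩),
            fun hx => absurd (Or.inl k2) hx⟩
        · exact ⟨fun _ hx => hx.elim k4 q2.1, fun _ => Or.inr k1⟩
      · rw [List.mem_append, t1, s2, List.mem_append, List.mem_append]
        exact prop1 _ _ _ _ _
      · rw [List.mem_append, List.mem_append]
        rcases hpp with ⟨k1, k2, k3, k4⟩ | ⟨k1, k2, k3, k4⟩
        · exact ⟨fun _ hx => hx.elim q2.2 k4, fun _ => Or.inl k1⟩
        · exact ⟨fun hx => absurd hx (by rw [not_or]; exact ⟨k3, q1.1⟩),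
            fun hx => absurd (Or.inr k2) hx⟩
      · rw [List.mem_append, t2, s1, List.mem_append, List.mem_append]
        exact prop1 _ _ _ _ _
    rw [List.append_eq_append_iff] at hst
    rcases hst with ⟨s', rfl, hst⟩ | ⟨c, rfl, rfl⟩
    · rw [List.append_eq_append_iff] at hst
      rcases hst with ⟨s'', rfl, hst⟩ | ⟨c, rfl, rfl⟩
      · rw [List.cons_eq_append_iff] at hst
        rcases hst with ⟨rfl, rfl⟩ | ⟨s3, rfl, hst⟩
        · -- split before the middle pair
          refine main y1 ((a, p) :: u1) y2 ((p, b) :: u2) rfl rfl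
            (Or.inl ⟨by simp, by simp, n3, n5⟩) ?_ ?_ ?_ ?_ <;> intro x <;>
            simp only [List.map_append, List.map_cons, List.map_nil, List.mem_append, List.mem_cons,
              List.append_nil] <;> constructor
          · rintro (hx | hx | hx)
            · exact ⟨Or.inl (Or.inl hx), fun e => n12 (e.symm.trans hx)⟩
            · exact ⟨Or.inl (Or.inr hx), ne n13 hx⟩
            · exact ⟨Or.inr (Or.inr hx), ne n6 hx⟩
          · rintro ⟨(hx | hx) | (hx | hx), hne⟩
            · exact Or.inl hx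
            · exact Or.inr (Or.inl hx)
            · exact absurd hx hne
            · exact Or.inr (Or.inr hx)
          · rintro (hx | hx | hx)
            · exact ⟨Or.inr (Or.inl hx), fun e => n22 (e.symm.trans hx)⟩
            · exact ⟨Or.inl (Or.inr hx), ne n4 hx⟩
            · exact ⟨Or.inr (Or.inr hx), ne n23 hx⟩
          · rintro ⟨(hx | hx) | (hx | hx), hne⟩
            · exact absurd hx hne
            · exact Or.inr (Or.inl hx)
            · exact Or.inl hx
            · exact Or.inr (Or.inr hx)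
          · rintro (hx | hx)
            · exact ⟨Or.inl hx, ne n11 hx⟩
            · exact ⟨Or.inr hx, ne n5 hx⟩
          · rintro ⟨hx | hx, hne⟩
            · exact Or.inl hx
            · exact Or.inr hx
          · rintro (hx | hx)
            · exact ⟨Or.inl hx, ne n3 hx⟩
            · exact ⟨Or.inr hx, ne n21 hx⟩
          · rintro ⟨hx | hx, hne⟩
            · exact Or.inl hx
            · exact Or.inr hx
        · rw [List.append_eq_append_iff] at hst
          rcases hst with ⟨d, rfl, rfl⟩ | ⟨d, rfl, rfl⟩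
          · -- s3 = u1 ++ d, u2 = d ++ t
            simp only [List.map_append, List.mem_append, not_or] at n6 n23
            refine main (y1 ++ (a, p) :: u1) [] (y2 ++ (p, b) :: d) t (by simp) (by simp)
              (Or.inr ⟨by simp, by simp, by simp, n6.2⟩) ?_ ?_ ?_ ?_ <;> intro x <;>
              simp only [List.map_append, List.map_cons, List.map_nil, List.mem_append,
                List.mem_cons, List.not_mem_nil, false_or] <;> constructor
            · exact fun hx => ⟨hx, ne n6.2 hx⟩
            · exact fun hx => hx.1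
            · exact fun hx => ⟨hx, ne n23.2 hx⟩
            · exact fun hx => hx.1
            · rintro (hx | hx | hx | hx | hx)
              · exact ⟨Or.inl (Or.inl hx), ne n11 hx⟩
              · exact ⟨Or.inr (Or.inl hx), ne n5 hx⟩
              · exact ⟨Or.inl (Or.inr (Or.inl hx)), fun e => n12 (e.symm.trans hx)⟩
              · exact ⟨Or.inl (Or.inr (Or.inr hx)), ne n13 hx⟩
              · exact ⟨Or.inr (Or.inr (Or.inr hx)), ne n6.1 hx⟩
            · rintro ⟨(hx | hx | hx) | (hx | hx | hx), hne⟩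
              · exact Or.inl hx
              · exact Or.inr (Or.inr (Or.inl hx))
              · exact Or.inr (Or.inr (Or.inr (Or.inl hx)))
              · exact Or.inr (Or.inl hx)
              · exact absurd hx hne
              · exact Or.inr (Or.inr (Or.inr (Or.inr hx)))
            · rintro (hx | hx | hx | hx | hx)
              · exact ⟨Or.inl (Or.inl hx), ne n3 hx⟩
              · exact ⟨Or.inr (Or.inl hx), ne n21 hx⟩
              · exact ⟨Or.inr (Or.inr (Or.inl hx)), fun e => n22 (e.symm.trans hx)⟩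
              · exact ⟨Or.inl (Or.inr (Or.inr hx)), ne n4 hx⟩
              · exact ⟨Or.inr (Or.inr (Or.inr hx)), ne n23.1 hx⟩
            · rintro ⟨(hx | hx | hx) | (hx | hx | hx), hne⟩
              · exact Or.inl hx
              · exact absurd hx hne
              · exact Or.inr (Or.inr (Or.inr (Or.inl hx)))
              · exact Or.inr (Or.inl hx)
              · exact Or.inr (Or.inr (Or.inl hx))
              · exact Or.inr (Or.inr (Or.inr (Or.inr hx)))
          · -- u1 = s3 ++ d, t = d ++ u2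
            simp only [List.map_append, List.mem_append, not_or] at n4 n13
            refine main (y1 ++ (a, p) :: s3) d (y2 ++ [(p, b)]) u2 (by simp) (by simp)
              (Or.inr ⟨by simp, by simp, n4.2, n6⟩) ?_ ?_ ?_ ?_ <;> intro x <;>
              simp only [List.map_append, List.map_cons, List.map_nil, List.mem_append,
                List.mem_cons, List.not_mem_nil, or_false] <;> constructor
            · rintro (hx | hx)
              · exact ⟨Or.inl hx, ne n13.2 hx⟩
              · exact ⟨Or.inr hx, ne n6 hx⟩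
            · exact fun hx => hx.1
            · rintro (hx | hx)
              · exact ⟨Or.inl hx, ne n4.2 hx⟩
              · exact ⟨Or.inr hx, ne n23 hx⟩
            · exact fun hx => hx.1
            · rintro (hx | hx | hx | hx)
              · exact ⟨Or.inl (Or.inl hx), ne n11 hx⟩
              · exact ⟨Or.inr (Or.inl hx), ne n5 hx⟩
              · exact ⟨Or.inl (Or.inr (Or.inl hx)), fun e => n12 (e.symm.trans hx)⟩
              · exact ⟨Or.inl (Or.inr (Or.inr hx)), ne n13.1 hx⟩
            · rintro ⟨(hx | hx | hx) | (hx | hx), hne⟩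
              · exact Or.inl hx
              · exact Or.inr (Or.inr (Or.inl hx))
              · exact Or.inr (Or.inr (Or.inr hx))
              · exact Or.inr (Or.inl hx)
              · exact absurd hx hne
            · rintro (hx | hx | hx | hx)
              · exact ⟨Or.inl (Or.inl hx), ne n3 hx⟩
              · exact ⟨Or.inr (Or.inl hx), ne n21 hx⟩
              · exact ⟨Or.inr (Or.inr hx), fun e => n22 (e.symm.trans hx)⟩
              · exact ⟨Or.inl (Or.inr (Or.inr hx)), ne n4.1 hx⟩
            · rintro ⟨(hx | hx | hx) | (hx | hx), hne⟩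
              · exact Or.inl hx
              · exact absurd hx hne
              · exact Or.inr (Or.inr (Or.inr hx))
              · exact Or.inr (Or.inl hx)
              · exact Or.inr (Or.inr (Or.inl hx))
      · -- y2 = s' ++ c
        simp only [List.map_append, List.mem_append, not_or] at n5 n21
        refine main y1 ((a, p) :: u1) s' (c ++ (p, b) :: u2) rfl (by simp)
          (Or.inl ⟨by simp, by simp, n3, n5.1⟩) ?_ ?_ ?_ ?_ <;> intro x <;>
          simp only [List.map_append, List.map_cons, List.map_nil, List.mem_append,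
            List.mem_cons] <;> constructor
        · rintro (hx | hx | hx | hx)
          · exact ⟨Or.inr (Or.inl hx), ne n5.2 hx⟩
          · exact ⟨Or.inl (Or.inl hx), fun e => n12 (e.symm.trans hx)⟩
          · exact ⟨Or.inl (Or.inr hx), ne n13 hx⟩
          · exact ⟨Or.inr (Or.inr (Or.inr hx)), ne n6 hx⟩
        · rintro ⟨(hx | hx) | (hx | hx | hx), hne⟩
          · exact Or.inr (Or.inl hx)
          · exact Or.inr (Or.inr (Or.inl hx))
          · exact Or.inl hx
          · exact absurd hx hne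
          · exact Or.inr (Or.inr (Or.inr hx))
        · rintro (hx | hx | hx | hx)
          · exact ⟨Or.inr (Or.inl hx), ne n21.2 hx⟩
          · exact ⟨Or.inr (Or.inr (Or.inl hx)), fun e => n22 (e.symm.trans hx)⟩
          · exact ⟨Or.inl (Or.inr hx), ne n4 hx⟩
          · exact ⟨Or.inr (Or.inr (Or.inr hx)), ne n23 hx⟩
        · rintro ⟨(hx | hx) | (hx | hx | hx), hne⟩
          · exact absurd hx hne
          · exact Or.inr (Or.inr (Or.inl hx))
          · exact Or.inl hx
          · exact Or.inr (Or.inl hx)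
          · exact Or.inr (Or.inr (Or.inr hx))
        · rintro (hx | hx)
          · exact ⟨Or.inl hx, ne n11 hx⟩
          · exact ⟨Or.inr hx, ne n5.1 hx⟩
        · exact fun hx => hx.1
        · rintro (hx | hx)
          · exact ⟨Or.inl hx, ne n3 hx⟩
          · exact ⟨Or.inr hx, ne n21.1 hx⟩
        · exact fun hx => hx.1
    · -- y1 = s ++ c
      simp only [List.map_append, List.mem_append, not_or] at n3 n11
      refine main s (c ++ (a, p) :: u1) [] (y2 ++ (p, b) :: u2) (by simp) (by simp)
        (Or.inl ⟨by simp, by simp, n3.1, by simp⟩) ?_ ?_ ?_ ?_ <;> intro x <;>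
        simp only [List.map_append, List.map_cons, List.map_nil, List.mem_append,
          List.mem_cons, List.not_mem_nil, or_false] <;> constructor
      · rintro (hx | hx | hx | hx | hx)
        · exact ⟨Or.inl (Or.inl hx), ne n11.2 hx⟩
        · exact ⟨Or.inr (Or.inl hx), ne n5 hx⟩
        · exact ⟨Or.inl (Or.inr (Or.inl hx)), fun e => n12 (e.symm.trans hx)⟩
        · exact ⟨Or.inl (Or.inr (Or.inr hx)), ne n13 hx⟩
        · exact ⟨Or.inr (Or.inr (Or.inr hx)), ne n6 hx⟩
      · rintro ⟨(hx | hx | hx) | (hx | hx | hx), hne⟩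
        · exact Or.inl hx
        · exact Or.inr (Or.inr (Or.inl hx))
        · exact Or.inr (Or.inr (Or.inr (Or.inl hx)))
        · exact Or.inr (Or.inl hx)
        · exact absurd hx hne
        · exact Or.inr (Or.inr (Or.inr (Or.inr hx)))
      · rintro (hx | hx | hx | hx | hx)
        · exact ⟨Or.inl (Or.inl hx), ne n3.2 hx⟩
        · exact ⟨Or.inr (Or.inl hx), ne n21 hx⟩
        · exact ⟨Or.inr (Or.inr (Or.inl hx)), fun e => n22 (e.symm.trans hx)⟩
        · exact ⟨Or.inl (Or.inr (Or.inr hx)), ne n4 hx⟩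
        · exact ⟨Or.inr (Or.inr (Or.inr hx)), ne n23 hx⟩
      · rintro ⟨(hx | hx | hx) | (hx | hx | hx), hne⟩
        · exact Or.inl hx
        · exact absurd hx hne
        · exact Or.inr (Or.inr (Or.inr (Or.inl hx)))
        · exact Or.inr (Or.inl hx)
        · exact Or.inr (Or.inr (Or.inl hx))
        · exact Or.inr (Or.inr (Or.inr (Or.inr hx)))
      · exact fun hx => ⟨hx, ne n11.1 hx⟩
      · exact fun hx => hx.1
      · exact fun hx => ⟨hx, ne n3.1 hx⟩
      · exact fun hx => hx.1

theorem GP.swap {M : Matroid α} {B B' : Set α} (h : GP M B B') : GP M B' B := by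
  obtain ⟨z, h1, h2, h3, h4, h5⟩ := h
  have e1 : (z.map Prod.swap).map Prod.fst = z.map Prod.snd := by
    rw [List.map_map]; rfl
  have e2 : (z.map Prod.swap).map Prod.snd = z.map Prod.fst := by
    rw [List.map_map]; rfl
  refine ⟨z.map Prod.swap, by rw [e1]; exact h2, by rw [e2]; exact h1, by rw [e1]; exact h4,
    by rw [e2]; exact h3, ?_⟩
  intro s t hst
  have h6 : z = s.map Prod.swap ++ t.map Prod.swap := by
    have := congrArg (List.map Prod.swap) hst
    rw [List.map_map, Prod.swap_swap_eq, List.map_id, List.map_append] at this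
    exact this
  have h7 := h5 _ _ h6
  have f1 : ∀ l : List (α × α), (l.map Prod.swap).map Prod.fst = l.map Prod.snd := by
    intro l; rw [List.map_map]; rfl
  have f2 : ∀ l : List (α × α), (l.map Prod.swap).map Prod.snd = l.map Prod.fst := by
    intro l; rw [List.map_map]; rfl
  rw [f1, f1, f2, f2] at h7
  exact ⟨h7.2, h7.1⟩

/-- closure under 2-sums -/
theorem twoSum {M₁ M₂ M : Matroid α} {p : α} (h : TwoSum M₁ M₂ M p)
    (h1 : ∀ B B', M₁.IsBase B → M₁.IsBase B' → GP M₁ B B')
    (h2 : ∀ B B', M₂.IsBase B → M₂.IsBase B' → GP M₂ B B') :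
    ∀ B B', M.IsBase B → M.IsBase B' → GP M B B' := by
  intro B B' hB hB'
  obtain ⟨A₁, A₂, hA₁, hA₂, hp, rfl⟩ := (h.2 B).1 hB
  obtain ⟨A₁', A₂', hA₁', hA₂', hp', rfl⟩ := (h.2 B').1 hB'
  by_cases hc : p ∈ A₁
  · have hc2 := hp.1 hc
    by_cases hc' : p ∈ A₁'
    · have hc2' := hp'.1 hc'
      rw [union_comm A₁, union_comm A₁']
      exact same_type h.symm h2 h1 hA₂ hA₁ hA₂' hA₁' hc2 hc hc2' hc'
    · have hc2' : p ∈ A₂' := by
        by_contra hn
        exact hc' (hp'.2 hn)
      rw [union_comm A₁, union_comm A₁']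
      exact opp_type h.symm h2 h1 hA₂ hA₁ hA₂' hA₁' hc2 hc hc2' hc'
  · have hc2 : p ∈ A₂ := by
      by_contra hn
      exact hc (hp.2 hn)
    by_cases hc' : p ∈ A₁'
    · exact opp_type h h1 h2 hA₁ hA₂ hA₁' hA₂' hc hc2 hc' (hp'.1 hc')
    · have hc2' : p ∈ A₂' := by
        by_contra hn
        exact hc' (hp'.2 hn)
      exact same_type h h1 h2 hA₁ hA₂ hA₁' hA₂' hc hc2 hc' hc2'

end Pool.Agent.H90.GB
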