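import Pool.Agent.H90.GB.Tr

/-! Cyclic orderings: reduction to 3-connected matroids. -/

set_option autoImplicit false

namespace Pool.Agent.H90.GB

open Set
open scoped Matroid

variable {α : Type*}

theorem base_of_card {M : Matroid α} [M.Finite] {B X : Set α} (hB : M.IsBase B)
    (hX : M.Spanning X) (hc : X.encard ≤ B.encard) : M.IsBase X := by
  obtain ⟨C, hC, hCX⟩ := hX.exists_isBase_subset
  have hfin : C.Finite := M.ground_finite.subset hC.subset_ground
  have : C = X := by
    apply hfin.eq_of_subset_of_encard_le hCX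
    rw [hC.encard_eq_encard_of_isBase hB]
    exact hc
  rwa [← this]

/-- replacing the basis of one side -/
theorem swap_basis {M : Matroid α} [M.Finite] {S P P' Y : Set α} (hP : M.IsBasis P S)
    (hP' : M.IsBasis P' S) (hY : Disjoint Y S) (hb : M.IsBase (Y ∪ P)) : M.IsBase (Y ∪ P') := by
  have hc : M.closure (Y ∪ P') = M.closure (Y ∪ P) := by
    apply Matroid.closure_union_congr_right
    rw [hP.closure_eq_closure, hP'.closure_eq_closure]
  have hYE : Y ⊆ M.E := subset_union_left.trans hb.subset_ground
  have hsp : M.Spanning (Y ∪ P') := by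
    rw [Matroid.spanning_iff, hc, hb.closure_eq]
    exact ⟨rfl, union_subset hYE hP'.indep.subset_ground⟩
  apply base_of_card hb hsp
  rw [encard_union_eq (hY.mono_right hP'.subset), encard_union_eq (hY.mono_right hP.subset),
    hP.encard_eq_encard hP']

/-- an independent subset of `S` of the size of a basis of `S` is a basis of `S` -/
theorem basis_of_card {M : Matroid α} [M.Finite] {S P I : Set α} (hP : M.IsBasis P S)
    (hI : M.Indep I) (hIS : I ⊆ S) (hc : P.encard ≤ I.encard) : M.IsBasis I S := by
  obtain ⟨J, hJ, hIJ⟩ := hI.subset_isBasis_of_subset hIS hP.subset_ground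
  have hfin : I.Finite := M.ground_finite.subset hI.subset_ground
  have : I = J := by
    apply hfin.eq_of_subset_of_encard_le hIJ
    rw [hJ.encard_eq_encard hP]
    exact hc
  rwa [this]

theorem indep_card_le {M : Matroid α} [M.Finite] {S P I : Set α} (hP : M.IsBasis P S)
    (hI : M.Indep I) (hIS : I ⊆ S) : I.ncard ≤ P.ncard := by
  obtain ⟨J, hJ, hIJ⟩ := hI.subset_isBasis_of_subset hIS hP.subset_ground
  have hfin : J.Finite := M.ground_finite.subset hJ.indep.subset_ground
  calc I.ncard ≤ J.ncard := ncard_le_ncard hIJ hfin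
    _ = P.ncard := by rw [ncard_def, ncard_def, hJ.encard_eq_encard hP]

theorem basis_of_ncard {M : Matroid α} [M.Finite] {S P I : Set α} (hP : M.IsBasis P S)
    (hI : M.Indep I) (hIS : I ⊆ S) (hc : P.ncard = I.ncard) : M.IsBasis I S := by
  have hfin : P.Finite := M.ground_finite.subset hP.indep.subset_ground
  have hfin2 : I.Finite := M.ground_finite.subset hI.subset_ground
  apply basis_of_card hP hI hIS
  rw [← hfin.cast_ncard_eq, ← hfin2.cast_ncard_eq, hc]

/-- the bases of a matroid with a 1-separation -/
theorem bases_one {M : Matroid α} [M.Finite] {S T P Q : Set α} (hST : S ∪ T = M.E)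
    (hd : Disjoint S T) (hP : M.IsBasis P S) (hQ : M.IsBasis Q T)
    {B : Set α} (hB : M.IsBase B) (hc : P.ncard + Q.ncard ≤ B.ncard) (X : Set α) :
    M.IsBase X ↔ ∃ A₁ A₂, (M ↾ S).IsBase A₁ ∧ (M ↾ T).IsBase A₂ ∧ X = A₁ ∪ A₂ := by
  have hfin : ∀ Z : Set α, M.Indep Z → Z.Finite := fun Z hZ =>
    M.ground_finite.subset hZ.subset_ground
  have hSE : S ⊆ M.E := hST ▸ subset_union_left
  have hTE : T ⊆ M.E := hST ▸ subset_union_right
  constructor
  · intro hX
    have hXE := hX.subset_ground
    have e : X ∩ S ∪ X ∩ T = X := by rw [← inter_union_distrib_left, hST, inter_eq_left.2 hXE]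
    have hdis : Disjoint (X ∩ S) (X ∩ T) := hd.mono inter_subset_right inter_subset_right
    have h1 : (X ∩ S).ncard + (X ∩ T).ncard = X.ncard := by
      rw [← ncard_union_eq hdis (hfin _ (hX.indep.subset inter_subset_left))
        (hfin _ (hX.indep.subset inter_subset_left)), e]
    have h2 : X.ncard = B.ncard := hX.ncard_eq_ncard_of_isBase hB
    have h3 := indep_card_le hP (hX.indep.subset (inter_subset_left (t := S))) inter_subset_right
    have h4 := indep_card_le hQ (hX.indep.subset (inter_subset_left (t := T))) inter_subset_right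
    refine ⟨X ∩ S, X ∩ T, ?_, ?_, e.symm⟩
    · rw [Matroid.isBase_restrict_iff hSE]
      exact basis_of_ncard hP (hX.indep.subset inter_subset_left) inter_subset_right (by omega)
    · rw [Matroid.isBase_restrict_iff hTE]
      exact basis_of_ncard hQ (hX.indep.subset inter_subset_left) inter_subset_right (by omega)
  · rintro ⟨A₁, A₂, h1, h2, rfl⟩
    rw [Matroid.isBase_restrict_iff hSE] at h1
    rw [Matroid.isBase_restrict_iff hTE] at h2
    have hsp : M.Spanning (A₁ ∪ A₂) := by
      have : M.closure (A₁ ∪ A₂) = M.closure (S ∪ T) := by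
        rw [← M.closure_union_closure_left_eq A₁ A₂, h1.closure_eq_closure,
          M.closure_union_closure_left_eq, ← M.closure_union_closure_right_eq S A₂,
          h2.closure_eq_closure, M.closure_union_closure_right_eq]
      rw [Matroid.spanning_iff, this, hST]
      exact ⟨M.closure_ground, union_subset h1.indep.subset_ground h2.indep.subset_ground⟩
    apply base_of_card hB hsp
    have h3 : A₁.ncard = P.ncard := by rw [ncard_def, ncard_def, h1.encard_eq_encard hP]
    have h4 : A₂.ncard = Q.ncard := by rw [ncard_def, ncard_def, h2.encard_eq_encard hQ]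
    have h5 := ncard_union_le A₁ A₂
    rw [← ((hfin _ h1.indep).union (hfin _ h2.indep)).cast_ncard_eq,
      ← (hfin _ hB.indep).cast_ncard_eq]
    exact_mod_cast (by omega : (A₁ ∪ A₂).ncard ≤ B.ncard)

/-- the data of a 2-separation -/
structure Dat (M : Matroid α) (S T P Q : Set α) (s t : α) : Prop where
  hST : S ∪ T = M.E
  hd : Disjoint S T
  hP : M.IsBasis P S
  hQ : M.IsBasis Q T
  hs : s ∈ P
  ht : t ∈ Q
  h1 : M.IsBase (P ∪ (Q \ {t}))
  h2 : M.IsBase (Q ∪ (P \ {s}))

theorem Dat.symm {M : Matroid α} {S T P Q : Set α} {s t : α} (h : Dat M S T P Q s t) :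
    Dat M T S Q P t s :=
  ⟨by rw [union_comm]; exact h.hST, h.hd.symm, h.hQ, h.hP, h.ht, h.hs, h.h2, h.h1⟩

/-- the first minor -/
theorem Dat.minor_isBase {M : Matroid α} {S T P Q : Set α} {s t : α} (h : Dat M S T P Q s t)
    (A : Set α) : ((M ／ (Q \ {t})) ↾ (S ∪ {t})).IsBase A ↔
      A ⊆ S ∪ {t} ∧ M.IsBase (A ∪ (Q \ {t})) := by
  have hI : M.Indep (Q \ {t}) := h.hQ.indep.subset sdiff_subset
  have hdis : Disjoint (S ∪ {t}) (Q \ {t}) := by
    rw [disjoint_union_left]
    refine ⟨h.hd.mono_right (sdiff_subset.trans h.hQ.subset), ?_⟩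
    rw [disjoint_singleton_left]
    simp
  have hSE : S ∪ {t} ⊆ M.E := by
    rw [← h.hST]
    apply union_subset_union_right
    rw [singleton_subset_iff]
    exact h.hQ.subset h.ht
  have hPb : (M ／ (Q \ {t})).IsBase P := by
    rw [hI.contract_isBase_iff]
    exact ⟨h.h1, (hdis.mono_left (h.hP.subset.trans subset_union_left))⟩
  have hsp : (M ／ (Q \ {t})).Spanning (S ∪ {t}) :=
    hPb.spanning.superset (h.hP.subset.trans subset_union_left) (by
      rw [Matroid.contract_ground, subset_sdiff]
      exact ⟨hSE, hdis⟩)
  rw [hsp.isBase_restrict_iff, hI.contract_isBase_iff]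
  constructor
  · rintro ⟨⟨h1, h2⟩, h3⟩
    exact ⟨h3, h1⟩
  · rintro ⟨h1, h2⟩
    exact ⟨⟨h2, hdis.mono_left h1⟩, h1⟩

theorem Dat.minor_strict {M : Matroid α} {S T P Q : Set α} {s t : α} (h : Dat M S T P Q s t)
    (hT : ∃ x ∈ T, x ≠ t) : (M ／ (Q \ {t})) ↾ (S ∪ {t}) <m M := by
  have hdis : Disjoint (S ∪ {t}) (Q \ {t}) := by
    rw [disjoint_union_left]
    refine ⟨h.hd.mono_right (sdiff_subset.trans h.hQ.subset), ?_⟩
    rw [disjoint_singleton_left]
    simp
  have hSE : S ∪ {t} ⊆ M.E := by
    rw [← h.hST]
    apply union_subset_union_right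
    rw [singleton_subset_iff]
    exact h.hQ.subset h.ht
  rw [Matroid.isStrictMinor_iff_isMinor_ssubset]
  refine ⟨⟨Q \ {t}, (M ／ (Q \ {t})).E \ (S ∪ {t}), ?_⟩, ?_⟩
  · exact (Matroid.delete_compl (by
      rw [Matroid.contract_ground, subset_sdiff]
      exact ⟨hSE, hdis⟩)).symm
  · rw [Matroid.restrict_ground_eq]
    refine ⟨hSE, ?_⟩
    intro hE
    obtain ⟨x, hx, hxt⟩ := hT
    have : x ∈ S ∪ {t} := hE (by rw [← h.hST]; exact Or.inr hx)
    rcases this with h5 | h5
    · exact h.hd.ne_of_mem h5 hx rfl
    · exact hxt h5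

/-- the bases of a matroid with an exact 2-separation -/
theorem Dat.bases {M : Matroid α} [M.Finite] {S T P Q : Set α} {s t : α}
    (h : Dat M S T P Q s t) (X : Set α) :
    M.IsBase X ↔ ∃ A₁ A₂, ((M ／ (Q \ {t})) ↾ (S ∪ {t})).IsBase A₁ ∧
      ((M ／ (P \ {s})) ↾ (T ∪ {s})).IsBase A₂ ∧ (t ∈ A₁ ↔ s ∉ A₂) ∧
      X = (A₁ \ {t}) ∪ (A₂ \ {s}) := by
  have hfin : ∀ Z : Set α, M.Indep Z → Z.Finite := fun Z hZ =>
    M.ground_finite.subset hZ.subset_ground
  have hsS : s ∈ S := h.hP.subset h.hs
  have htT : t ∈ T := h.hQ.subset h.ht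
  have htS : t ∉ S := fun hx => h.hd.ne_of_mem hx htT rfl
  have hsT : s ∉ T := fun hx => h.hd.ne_of_mem hsS hx rfl
  have hdPQ : Disjoint P (Q \ {t}) := h.hd.mono h.hP.subset (sdiff_subset.trans h.hQ.subset)
  have hQt : (Q \ {t}).ncard + 1 = Q.ncard := ncard_sdiff_singleton_add_one h.ht (hfin _ h.hQ.indep)
  have eQ : insert t (Q \ {t}) = Q := insert_sdiff_self_of_mem h.ht
  have eP : insert s (P \ {s}) = P := insert_sdiff_self_of_mem h.hs
  constructor
  · intro hX
    have hXE := hX.subset_ground
    have e : X ∩ S ∪ X ∩ T = X := by rw [← inter_union_distrib_left, h.hST, inter_eq_left.2 hXE]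
    have hdis : Disjoint (X ∩ S) (X ∩ T) := h.hd.mono inter_subset_right inter_subset_right
    have iS : M.Indep (X ∩ S) := hX.indep.subset inter_subset_left
    have iT : M.Indep (X ∩ T) := hX.indep.subset inter_subset_left
    have h1 : (X ∩ S).ncard + (X ∩ T).ncard = X.ncard := by
      rw [← ncard_union_eq hdis (hfin _ iS) (hfin _ iT), e]
    have h2 : X.ncard = P.ncard + (Q \ {t}).ncard := by
      rw [hX.ncard_eq_ncard_of_isBase h.h1, ncard_union_eq hdPQ (hfin _ h.hP.indep)
        (hfin _ (h.hQ.indep.subset sdiff_subset))]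
    have h3 := indep_card_le h.hP iS inter_subset_right
    have h4 := indep_card_le h.hQ iT inter_subset_right
    rcases (by omega : (P.ncard = (X ∩ S).ncard) ∨ (Q.ncard = (X ∩ T).ncard)) with h5 | h5
    · have hb : M.IsBasis (X ∩ S) S := basis_of_ncard h.hP iS inter_subset_right h5
      refine ⟨X ∩ S, insert s (X ∩ T), ?_, ?_, ?_, ?_⟩
      · rw [h.minor_isBase]
        refine ⟨inter_subset_right.trans subset_union_left, ?_⟩
        rw [union_comm]
        apply swap_basis h.hP hb
        · exact (h.hd.mono_right (sdiff_subset.trans h.hQ.subset)).symm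
        · rw [union_comm]; exact h.h1
      · rw [h.symm.minor_isBase]
        constructor
        · rw [union_singleton]
          exact insert_subset_insert inter_subset_right
        · rw [insert_union, ← union_insert, eP]
          apply swap_basis hb h.hP
          · exact h.hd.symm.mono_left inter_subset_right
          · rw [union_comm, e]; exact hX
      · constructor
        · intro hh; exact absurd hh.2 htS
        · intro hh; exact absurd (mem_insert _ _) hh
      · rw [insert_sdiff_self_of_notMem (fun hh => hsT hh.2),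
          sdiff_singleton_eq_self (fun hh => htS hh.2), e]
    · have hb : M.IsBasis (X ∩ T) T := basis_of_ncard h.hQ iT inter_subset_right h5
      refine ⟨insert t (X ∩ S), X ∩ T, ?_, ?_, ?_, ?_⟩
      · rw [h.minor_isBase]
        constructor
        · rw [union_singleton]
          exact insert_subset_insert inter_subset_right
        · rw [insert_union, ← union_insert, eQ]
          apply swap_basis hb h.hQ
          · exact h.hd.mono_left inter_subset_right
          · rw [e]; exact hX
      · rw [h.symm.minor_isBase]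
        refine ⟨inter_subset_right.trans subset_union_left, ?_⟩
        rw [union_comm]
        apply swap_basis h.hQ hb
        · exact h.hd.mono_left (sdiff_subset.trans h.hP.subset)
        · rw [union_comm]; exact h.h2
      · constructor
        · intro _ hh; exact hsT hh.2
        · intro _; exact mem_insert _ _
      · rw [insert_sdiff_self_of_notMem (fun hh => htS hh.2),
          sdiff_singleton_eq_self (fun hh => hsT hh.2), e]
  · rintro ⟨A₁, A₂, h1, h2, h3, rfl⟩
    rw [h.minor_isBase] at h1
    rw [h.symm.minor_isBase] at h2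
    obtain ⟨h1s, h1⟩ := h1
    obtain ⟨h2s, h2⟩ := h2
    by_cases ht1 : t ∈ A₁
    · have hs2 : s ∉ A₂ := h3.1 ht1
      have h2T : A₂ ⊆ T := by
        intro x hx
        rcases h2s hx with h5 | h5
        · exact h5
        · exact absurd (h5 ▸ hx) hs2
      have hb : M.IsBasis A₂ T := by
        apply basis_of_ncard h.hQ (h2.indep.subset subset_union_left) h2T
        have e1 := h2.ncard_eq_ncard_of_isBase h.h2
        rw [ncard_union_eq (h.hd.symm.mono h2T (sdiff_subset.trans h.hP.subset))
          (hfin _ (h2.indep.subset subset_union_left))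
          (hfin _ (h.hP.indep.subset sdiff_subset)),
          ncard_union_eq (h.hd.symm.mono h.hQ.subset (sdiff_subset.trans h.hP.subset))
          (hfin _ h.hQ.indep) (hfin _ (h.hP.indep.subset sdiff_subset))] at e1
        omega
      rw [sdiff_singleton_eq_self hs2]
      apply swap_basis h.hQ hb
      · apply h.hd.mono_left
        rintro x ⟨hx, hx'⟩
        rcases h1s hx with h5 | h5
        · exact h5
        · exact absurd h5 hx'
      · have e2 : A₁ \ {t} ∪ Q = A₁ ∪ Q \ {t} := by
          ext x
          simp only [mem_union, mem_sdiff, mem_singleton_iff]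
          constructor
          · rintro (hx | hx)
            · exact Or.inl hx.1
            · by_cases hxt : x = t
              · exact Or.inl (hxt ▸ ht1)
              · exact Or.inr ⟨hx, hxt⟩
          · rintro (hx | hx)
            · by_cases hxt : x = t
              · exact Or.inr (hxt ▸ h.ht)
              · exact Or.inl ⟨hx, hxt⟩
            · exact Or.inr hx.1
        rw [e2]
        exact h1
    · have hs2 : s ∈ A₂ := by
        by_contra hh
        exact ht1 (h3.2 hh)
      have h1S : A₁ ⊆ S := by
        intro x hx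
        rcases h1s hx with h5 | h5
        · exact h5
        · exact absurd (h5 ▸ hx) ht1
      have hb : M.IsBasis A₁ S := by
        apply basis_of_ncard h.hP (h1.indep.subset subset_union_left) h1S
        have e1 := h1.ncard_eq_ncard_of_isBase h.h1
        rw [ncard_union_eq (h.hd.mono h1S (sdiff_subset.trans h.hQ.subset))
          (hfin _ (h1.indep.subset subset_union_left))
          (hfin _ (h.hQ.indep.subset sdiff_subset)),
          ncard_union_eq hdPQ
          (hfin _ h.hP.indep) (hfin _ (h.hQ.indep.subset sdiff_subset))] at e1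
        omega
      rw [sdiff_singleton_eq_self ht1, union_comm]
      apply swap_basis h.hP hb
      · apply h.hd.symm.mono_left
        rintro x ⟨hx, hx'⟩
        rcases h2s hx with h5 | h5
        · exact h5
        · exact absurd h5 hx'
      · have e2 : A₂ \ {s} ∪ P = A₂ ∪ P \ {s} := by
          ext x
          simp only [mem_union, mem_sdiff, mem_singleton_iff]
          constructor
          · rintro (hx | hx)
            · exact Or.inl hx.1
            · by_cases hxt : x = s
              · exact Or.inl (hxt ▸ hs2)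
              · exact Or.inr ⟨hx, hxt⟩
          · rintro (hx | hx)
            · by_cases hxt : x = s
              · exact Or.inr (hxt ▸ h.hs)
              · exact Or.inl ⟨hx, hxt⟩
            · exact Or.inr hx.1
        rw [e2]
        exact h2

end Pool.Agent.H90.GB
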