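import Pool.Agent.H90.GB.Red

/-! Cyclic orderings: reduction to 3-connected matroids, the end. -/

set_option autoImplicit false

namespace Pool.Agent.H90.GB

open Set
open scoped Matroid

variable {α : Type*}

open Classical in
/-- relabelling of the base point -/
noncomputable def fo (t : α) (x : α) : Option α := if x = t then none else some x

theorem fo_self (t : α) : fo t t = none := by simp [fo]

theorem fo_ne {t x : α} (h : x ≠ t) : fo t x = some x := by simp [fo, h]

theorem fo_inj (t : α) : Function.Injective (fo t) := by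
  intro x y hxy
  by_cases hx : x = t
  · by_cases hy : y = t
    · rw [hx, hy]
    · rw [hx, fo_self, fo_ne hy] at hxy
      cases hxy
  · by_cases hy : y = t
    · rw [hy, fo_self, fo_ne hx] at hxy
      cases hxy
    · rw [fo_ne hx, fo_ne hy] at hxy
      exact Option.some.inj hxy

theorem none_mem_fo (t : α) (A : Set α) : none ∈ fo t '' A ↔ t ∈ A := by
  constructor
  · rintro ⟨x, hx, hxn⟩
    by_cases h : x = t
    · rwa [← h]
    · rw [fo_ne h] at hxn
      cases hxn
  · intro h
    exact ⟨t, h, fo_self t⟩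

theorem some_mem_fo (t : α) (A : Set α) (x : α) : some x ∈ fo t '' A ↔ x ∈ A ∧ x ≠ t := by
  constructor
  · rintro ⟨y, hy, hyx⟩
    by_cases h : y = t
    · rw [h, fo_self] at hyx
      cases hyx
    · rw [fo_ne h] at hyx
      obtain rfl := Option.some.inj hyx
      exact ⟨hy, h⟩
  · rintro ⟨h, hne⟩
    exact ⟨x, h, fo_ne hne⟩

theorem fo_image (t : α) (A : Set α) : fo t '' A \ {none} = some '' (A \ {t}) := by
  ext x
  cases x with
  | none => simp
  | some x => 
    rw [mem_sdiff, some_mem_fo]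
    simp

theorem Dat.two {M : Matroid α} [M.Finite] {S T P Q : Set α} {s t : α}
    (h : Dat M S T P Q s t) (g1 : GA ((M ／ (Q \ {t})) ↾ (S ∪ {t})))
    (g2 : GA ((M ／ (P \ {s})) ↾ (T ∪ {s}))) : GA M := by
  have hsS : s ∈ S := h.hP.subset h.hs
  have htT : t ∈ T := h.hQ.subset h.ht
  have e : TwoSum (((M ／ (Q \ {t})) ↾ (S ∪ {t})).map (fo t) (fo_inj t).injOn)
      (((M ／ (P \ {s})) ↾ (T ∪ {s})).map (fo s) (fo_inj s).injOn)
      (M.map some (Option.some_injective _).injOn) none := by
    constructor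
    · rw [Matroid.map_ground, Matroid.map_ground, Matroid.restrict_ground_eq,
        Matroid.restrict_ground_eq]
      ext x
      cases x with
      | none =>
        rw [mem_inter_iff, none_mem_fo, none_mem_fo]
        simp
      | some x =>
        rw [mem_inter_iff, some_mem_fo, some_mem_fo]
        constructor
        · rintro ⟨⟨h1 | h1, h2⟩, ⟨h3 | h3, h4⟩⟩
          · exact absurd rfl (h.hd.ne_of_mem h1 h3)
          · exact absurd h3 h4
          · exact absurd h1 h2
          · exact absurd h1 h2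
        · intro hh
          cases hh
    · intro X
      rw [Matroid.map_isBase_iff]
      constructor
      · rintro ⟨Y, hY, rfl⟩
        obtain ⟨A₁, A₂, h1, h2, h3, rfl⟩ := (h.bases Y).1 hY
        refine ⟨fo t '' A₁, fo s '' A₂, (Matroid.map_isBase_iff ..).2 ⟨A₁, h1, rfl⟩,
          (Matroid.map_isBase_iff ..).2 ⟨A₂, h2, rfl⟩, ?_, ?_⟩
        · rw [none_mem_fo, none_mem_fo]; exact h3
        · rw [union_sdiff_distrib, fo_image, fo_image, ← image_union]
      · rintro ⟨B₁, B₂, hB₁, hB₂, h3, rfl⟩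
        rw [Matroid.map_isBase_iff] at hB₁ hB₂
        obtain ⟨A₁, h1, rfl⟩ := hB₁
        obtain ⟨A₂, h2, rfl⟩ := hB₂
        rw [none_mem_fo, none_mem_fo] at h3
        exact ⟨_, (h.bases _).2 ⟨A₁, A₂, h1, h2, h3, rfl⟩, by
          rw [union_sdiff_distrib, fo_image, fo_image, ← image_union]⟩
  have h5 : GA (M.map some (Option.some_injective _).injOn) :=
    twoSum e (g1.map _) (g2.map _)
  exact GA.of_map (g := fun o => o.getD t) (fun x => rfl) _ h5

/-- removing one element -/
theorem exists_rem {M : Matroid α} [M.Finite] {S T P Q : Set α} (hST : S ∪ T = M.E)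
    (hd : Disjoint S T) (hP : M.IsBasis P S) (hQ : M.IsBasis Q T)
    {B : Set α} (hB : M.IsBase B) (hc : P.ncard + Q.ncard = B.ncard + 1) :
    ∃ t ∈ Q, M.IsBase (P ∪ (Q \ {t})) := by
  have hfin : ∀ Z : Set α, M.Indep Z → Z.Finite := fun Z hZ =>
    M.ground_finite.subset hZ.subset_ground
  have hsp : M.Spanning (P ∪ Q) := by
    have : M.closure (P ∪ Q) = M.closure (S ∪ T) := by
      rw [← M.closure_union_closure_left_eq P Q, hP.closure_eq_closure,
        M.closure_union_closure_left_eq, ← M.closure_union_closure_right_eq S Q,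
        hQ.closure_eq_closure, M.closure_union_closure_right_eq]
    rw [Matroid.spanning_iff, this, hST]
    exact ⟨M.closure_ground, union_subset hP.indep.subset_ground hQ.indep.subset_ground⟩
  obtain ⟨C, hC, hPC, hCQ⟩ := hP.indep.exists_isBase_subset_spanning hsp subset_union_left
  have h1 : (P ∪ Q).ncard = P.ncard + Q.ncard :=
    ncard_union_eq (hd.mono hP.subset hQ.subset) (hfin _ hP.indep) (hfin _ hQ.indep)
  have h2 : C.ncard = B.ncard := hC.ncard_eq_ncard_of_isBase hB
  have h3 : ∃ t ∈ P ∪ Q, t ∉ C := by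
    by_contra hh
    push Not at hh
    have : C = P ∪ Q := hCQ.antisymm hh
    rw [← this] at h1
    omega
  obtain ⟨t, ht, htC⟩ := h3
  have htQ : t ∈ Q := by
    rcases ht with h4 | h4
    · exact absurd (hPC h4) htC
    · exact h4
  refine ⟨t, htQ, ?_⟩
  have hsub : C ⊆ P ∪ (Q \ {t}) := by
    intro x hx
    rcases hCQ hx with h5 | h5
    · exact Or.inl h5
    · exact Or.inr ⟨h5, fun e => htC (e ▸ hx)⟩
  have hsp2 : M.Spanning (P ∪ (Q \ {t})) :=
    hC.spanning.superset hsub (union_subset hP.indep.subset_ground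
      (sdiff_subset.trans hQ.indep.subset_ground))
  apply base_of_card hB hsp2
  have h6 := ncard_union_le P (Q \ {t})
  have h7 : (Q \ {t}).ncard + 1 = Q.ncard := ncard_sdiff_singleton_add_one htQ (hfin _ hQ.indep)
  rw [← ((hfin _ hP.indep).union (hfin _ (hQ.indep.subset sdiff_subset))).cast_ncard_eq,
    ← (hfin _ hB.indep).cast_ncard_eq]
  exact_mod_cast (by omega : (P ∪ (Q \ {t})).ncard ≤ B.ncard)

/-- a minor-minimal counterexample is 3-connected -/
theorem three {M : Matroid α} [M.Finite] (hM : ¬ GA M) (hmin : ∀ N, N <m M → GA N)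
    {S T : Set α} (hST : S ∪ T = M.E) (hd : Disjoint S T) (hSn : S.Nonempty) (hTn : T.Nonempty) :
    M.eRank + 1 ≤ M.eRk S + M.eRk T ∧
      (S.Nontrivial → T.Nontrivial → M.eRank + 2 ≤ M.eRk S + M.eRk T) := by
  have hfin : ∀ Z : Set α, M.Indep Z → Z.Finite := fun Z hZ =>
    M.ground_finite.subset hZ.subset_ground
  have hSE : S ⊆ M.E := hST ▸ subset_union_left
  have hTE : T ⊆ M.E := hST ▸ subset_union_right
  obtain ⟨P, hP⟩ := M.exists_isBasis S hSE
  obtain ⟨Q, hQ⟩ := M.exists_isBasis T hTE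
  obtain ⟨B, hB⟩ := M.exists_isBase
  have rS : ∀ {S T : Set α}, S ∪ T = M.E → Disjoint S T → T.Nonempty → M ↾ S <m M := by
    intro S T hST hd hT
    have hSE : S ⊆ M.E := hST ▸ subset_union_left
    rw [Matroid.isStrictMinor_iff_isMinor_ssubset]
    refine ⟨⟨∅, M.E \ S, ?_⟩, ?_⟩
    · rw [Matroid.contract_empty, Matroid.delete_compl hSE]
    · rw [Matroid.restrict_ground_eq]
      refine ⟨hSE, fun hE => ?_⟩
      obtain ⟨x, hx⟩ := hT
      exact hd.ne_of_mem (hE (by rw [← hST]; exact Or.inr hx)) hx rfl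
  have c1 : B.ncard + 1 ≤ P.ncard + Q.ncard := by
    by_contra hlt
    apply hM
    exact direct (M₁ := M ↾ S) (M₂ := M ↾ T)
      (by rw [Matroid.restrict_ground_eq, Matroid.restrict_ground_eq]; exact hd)
      (bases_one hST hd hP hQ hB (by omega)) (hmin _ (rS hST hd hTn))
      (hmin _ (rS (by rw [union_comm]; exact hST) hd.symm hSn))
  have c2 : S.Nontrivial → T.Nontrivial → B.ncard + 2 ≤ P.ncard + Q.ncard := by
    intro hS hT
    by_contra hlt
    have hc : P.ncard + Q.ncard = B.ncard + 1 := by omega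
    obtain ⟨t, ht, h1⟩ := exists_rem hST hd hP hQ hB hc
    obtain ⟨s, hs, h2⟩ := exists_rem (by rw [union_comm]; exact hST) hd.symm hQ hP hB
      (by omega)
    have D : Dat M S T P Q s t := ⟨hST, hd, hP, hQ, hs, ht, h1, h2⟩
    exact hM (D.two (hmin _ (D.minor_strict (hT.exists_ne t)))
      (hmin _ (D.symm.minor_strict (hS.exists_ne s))))
  rw [← hP.encard_eq_eRk, ← hQ.encard_eq_eRk, ← hB.encard_eq_eRank,
    ← (hfin _ hP.indep).cast_ncard_eq, ← (hfin _ hQ.indep).cast_ncard_eq,
    ← (hfin _ hB.indep).cast_ncard_eq]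
  exact ⟨by exact_mod_cast c1, fun h1 h2 => by exact_mod_cast c2 h1 h2⟩

end Pool.Agent.H90.GB
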