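import Pool.Agent.H90.GB.Opp

/-! Cyclic orderings: isomorphisms and direct sums. -/

set_option autoImplicit false

namespace Pool.Agent.H90.GB

open Set

variable {α β : Type*}

/-- all pairs of bases have cyclic orderings -/
def GA (M : Matroid α) : Prop := ∀ B B', M.IsBase B → M.IsBase B' → GP M B B'

theorem st_map (f : α → β) (l : List α) : st (l.map f) = f '' st l := by
  ext x
  simp [st]

theorem GP.congr {M N : Matroid α} (h : ∀ X, M.IsBase X ↔ N.IsBase X) {B B' : Set α}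
    (hP : GP M B B') : GP N B B' := by
  obtain ⟨z, h1, h2, h3, h4, h5⟩ := hP
  refine ⟨z, h1, h2, h3, h4, fun s t hst => ?_⟩
  rw [← h, ← h]
  exact h5 s t hst

theorem GP.map {M : Matroid α} {f : α → β} (hf : InjOn f M.E) {B B' : Set α} (h : GP M B B') :
    GP (M.map f hf) (f '' B) (f '' B') := by
  obtain ⟨z, h1, h2, rfl, rfl, h5⟩ := h
  have hb1 : M.IsBase (st (z.map Prod.fst)) := by
    have := (h5 [] z rfl).1
    rwa [List.map_nil, List.append_nil] at this
  have hb2 : M.IsBase (st (z.map Prod.snd)) := by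
    have := (h5 [] z rfl).2
    rwa [List.map_nil, List.append_nil] at this
  have e1 : ∀ l : List (α × α), (l.map (Prod.map f f)).map Prod.fst = (l.map Prod.fst).map f := by
    intro l; rw [List.map_map, List.map_map]; rfl
  have e2 : ∀ l : List (α × α), (l.map (Prod.map f f)).map Prod.snd = (l.map Prod.snd).map f := by
    intro l; rw [List.map_map, List.map_map]; rfl
  refine ⟨z.map (Prod.map f f), ?_, ?_, ?_, ?_, ?_⟩
  · rw [e1]
    exact List.Nodup.map_on (fun x hx y hy hxy =>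
      hf (hb1.subset_ground hx) (hb1.subset_ground hy) hxy) h1
  · rw [e2]
    exact List.Nodup.map_on (fun x hx y hy hxy =>
      hf (hb2.subset_ground hx) (hb2.subset_ground hy) hxy) h2
  · rw [e1, st_map]
  · rw [e2, st_map]
  · intro s t hst
    obtain ⟨s', t', rfl, rfl, rfl⟩ := List.map_eq_append_iff.1 hst
    have h6 := h5 s' t' rfl
    rw [e1, e1, e2, e2, ← List.map_append, ← List.map_append, st_map, st_map]
    rw [Matroid.map_isBase_iff, Matroid.map_isBase_iff]
    exact ⟨⟨_, h6.1, rfl⟩, ⟨_, h6.2, rfl⟩⟩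

theorem GA.map {M : Matroid α} (h : GA M) {f : α → β} (hf : InjOn f M.E) : GA (M.map f hf) := by
  intro B B' hB hB'
  rw [Matroid.map_isBase_iff] at hB hB'
  obtain ⟨C, hC, rfl⟩ := hB
  obtain ⟨C', hC', rfl⟩ := hB'
  exact (h C C' hC hC').map hf

theorem GA.of_map {M : Matroid α} {f : α → β} {g : β → α} (hgf : ∀ x, g (f x) = x)
    (hf : InjOn f M.E) (h : GA (M.map f hf)) : GA M := by
  have hg : InjOn g (M.map f hf).E := by
    rintro _ ⟨x, hx, rfl⟩ _ ⟨y, hy, rfl⟩ hxy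
    rw [hgf, hgf] at hxy
    rw [hxy]
  have him : ∀ X : Set α, g '' (f '' X) = X := by
    intro X
    rw [image_image]
    simp [hgf]
  intro B B' hB hB'
  have h1 := (h.map hg) B B' ?_ ?_
  · refine h1.congr fun X => ?_
    rw [Matroid.map_isBase_iff]
    constructor
    · rintro ⟨Y, hY, rfl⟩
      rw [Matroid.map_isBase_iff] at hY
      obtain ⟨W, hW, rfl⟩ := hY
      rwa [him]
    · intro hX
      exact ⟨f '' X, (Matroid.map_isBase_iff ..).2 ⟨X, hX, rfl⟩, (him X).symm⟩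
  · exact (Matroid.map_isBase_iff ..).2 ⟨f '' B, (Matroid.map_isBase_iff ..).2 ⟨B, hB, rfl⟩,
      (him B).symm⟩
  · exact (Matroid.map_isBase_iff ..).2 ⟨f '' B', (Matroid.map_isBase_iff ..).2 ⟨B', hB', rfl⟩,
      (him B').symm⟩

/-- direct sums -/
theorem direct {M₁ M₂ M : Matroid α} (hE : Disjoint M₁.E M₂.E)
    (hb : ∀ X, M.IsBase X ↔ ∃ A₁ A₂, M₁.IsBase A₁ ∧ M₂.IsBase A₂ ∧ X = A₁ ∪ A₂)
    (h1 : GA M₁) (h2 : GA M₂) : GA M := by
  intro B B' hB hB'
  obtain ⟨A₁, A₂, hA₁, hA₂, rfl⟩ := (hb B).1 hB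
  obtain ⟨A₁', A₂', hA₁', hA₂', rfl⟩ := (hb B').1 hB'
  obtain ⟨z, hz1, hz2, rfl, rfl, hzG⟩ := h1 _ _ hA₁ hA₁'
  obtain ⟨w, hw1, hw2, rfl, rfl, hwG⟩ := h2 _ _ hA₂ hA₂'
  have hun : ∀ l l' : List α, st (l ++ l') = st l ∪ st l' := by
    intro l l'; ext x; simp [st]
  refine ⟨z ++ w, ?_, ?_, ?_, ?_, ?_⟩
  · rw [List.map_append, List.nodup_append]
    refine ⟨hz1, hw1, ?_⟩
    rintro x hx y hy rfl
    exact hE.ne_of_mem (hA₁.subset_ground hx) (hA₂.subset_ground hy) rfl
  · rw [List.map_append, List.nodup_append]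
    refine ⟨hz2, hw2, ?_⟩
    rintro x hx y hy rfl
    exact hE.ne_of_mem (hA₁'.subset_ground hx) (hA₂'.subset_ground hy) rfl
  · rw [List.map_append, hun]
  · rw [List.map_append, hun]
  · intro s t hst
    rw [List.append_eq_append_iff] at hst
    rcases hst with ⟨a, rfl, rfl⟩ | ⟨c, rfl, rfl⟩
    · have g1 := hzG z [] (by simp)
      have g2 := hwG a t rfl
      rw [hb, hb]
      refine ⟨⟨_, _, g1.1, g2.1, ?_⟩, ⟨_, _, g1.2, g2.2, ?_⟩⟩ <;> ext x <;>
        simp only [st, List.map_append, List.map_nil, List.mem_append, mem_union, mem_ofPred_eq,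
          List.not_mem_nil, false_or] <;> tauto
    · have g1 := hzG s c rfl
      have g2 := hwG [] w rfl
      rw [hb, hb]
      refine ⟨⟨_, _, g1.1, g2.1, ?_⟩, ⟨_, _, g1.2, g2.2, ?_⟩⟩ <;> ext x <;>
        simp only [st, List.map_append, List.map_nil, List.mem_append, mem_union, mem_ofPred_eq,
          List.not_mem_nil, or_false] <;> tauto

end Pool.Agent.H90.GB
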