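import Pool.Agent.H90.GB.Core

/-! Cyclic orderings and 2-sums. -/

set_option autoImplicit false

namespace Pool.Agent.H90.GB

open Set

variable {α : Type*}

/-- `M` is the 2-sum of `M₁` and `M₂` with base point `p` (description of the bases) -/
def TwoSum (M₁ M₂ M : Matroid α) (p : α) : Prop :=
  M₁.E ∩ M₂.E = {p} ∧ ∀ X, M.IsBase X ↔ ∃ A₁ A₂, M₁.IsBase A₁ ∧ M₂.IsBase A₂ ∧
    (p ∈ A₁ ↔ p ∉ A₂) ∧ X = (A₁ ∪ A₂) \ {p}

theorem TwoSum.symm {M₁ M₂ M : Matroid α} {p : α} (h : TwoSum M₁ M₂ M p) : TwoSum M₂ M₁ M p := by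
  refine ⟨by rw [inter_comm]; exact h.1, fun X => ?_⟩
  rw [h.2]
  constructor
  · rintro ⟨A₁, A₂, h1, h2, h3, h4⟩
    exact ⟨A₂, A₁, h2, h1, by tauto, by rw [union_comm]; exact h4⟩
  · rintro ⟨A₁, A₂, h1, h2, h3, h4⟩
    exact ⟨A₂, A₁, h2, h1, by tauto, by rw [union_comm]; exact h4⟩

theorem prop1 (P Q S T R : Prop) :
    (((P ∨ Q) ∧ R) ∨ ((S ∨ T) ∧ R) ↔ ((P ∨ S) ∨ Q ∨ T) ∧ R) := by tauto

/-- building a base from two windows -/
theorem TwoSum.mk {M₁ M₂ M : Matroid α} {p : α} (h : TwoSum M₁ M₂ M p) {l l₁ l₂ : List α}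
    (h1 : M₁.IsBase (st l₁)) (h2 : M₂.IsBase (st l₂)) (hp : p ∈ l₁ ↔ p ∉ l₂)
    (hl : ∀ x, x ∈ l ↔ (x ∈ l₁ ∨ x ∈ l₂) ∧ x ≠ p) : M.IsBase (st l) := by
  rw [h.2]
  refine ⟨st l₁, st l₂, h1, h2, hp, ?_⟩
  ext x
  simp only [st, mem_ofPred_eq, mem_sdiff, mem_union, mem_singleton_iff]
  exact hl x

/-- the pairs of bases of the same type -/
theorem same_type {M₁ M₂ M : Matroid α} {p : α} (h : TwoSum M₁ M₂ M p)
    (h1 : ∀ B B', M₁.IsBase B → M₁.IsBase B' → GP M₁ B B')
    (h2 : ∀ B B', M₂.IsBase B → M₂.IsBase B' → GP M₂ B B') {A₁ A₂ A₁' A₂' : Set α}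
    (hA₁ : M₁.IsBase A₁) (hA₂ : M₂.IsBase A₂) (hA₁' : M₁.IsBase A₁') (hA₂' : M₂.IsBase A₂')
    (hp : p ∉ A₁) (hp2 : p ∈ A₂) (hp' : p ∉ A₁') (hp2' : p ∈ A₂') :
    GP M ((A₁ ∪ A₂) \ {p}) ((A₁' ∪ A₂') \ {p}) := by
  obtain ⟨z, hz1, hz2, rfl, rfl, hzG⟩ := h1 _ _ hA₁ hA₁'
  obtain ⟨w, hw1, hw2, rfl, rfl, hwG⟩ := h2 _ _ hA₂ hA₂'
  obtain ⟨y, u, rfl⟩ := hwG.common hw1 hp2 hp2'
  have hd : ∀ x, x ∈ M₁.E → x ∈ M₂.E → x = p := by
    intro x hx hx'
    have : x ∈ M₁.E ∩ M₂.E := ⟨hx, hx'⟩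
    rwa [h.1] at this
  simp only [List.map_append, List.map_cons] at hw1 hw2 hA₂ hA₂'
  rw [List.nodup_append, List.nodup_cons] at hw1 hw2
  have e1 : ∀ x, x ∈ z.map Prod.fst → x ∈ M₁.E := fun x hx => hA₁.subset_ground hx
  have e2 : ∀ x, x ∈ z.map Prod.snd → x ∈ M₁.E := fun x hx => hA₁'.subset_ground hx
  have e3 : ∀ x, x ∈ y.map Prod.fst ++ p :: u.map Prod.fst → x ∈ M₂.E :=
    fun x hx => hA₂.subset_ground hx
  have e4 : ∀ x, x ∈ y.map Prod.snd ++ p :: u.map Prod.snd → x ∈ M₂.E :=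
    fun x hx => hA₂'.subset_ground hx
  have n1 : p ∉ z.map Prod.fst := hp
  have n2 : p ∉ z.map Prod.snd := hp'
  have n3 : p ∉ y.map Prod.fst := fun hx => hw1.2.2 p hx p (by simp) rfl
  have n4 : p ∉ u.map Prod.fst := hw1.2.1.1
  have n5 : p ∉ y.map Prod.snd := fun hx => hw2.2.2 p hx p (by simp) rfl
  have n6 : p ∉ u.map Prod.snd := hw2.2.1.1
  refine ⟨z ++ (y ++ u), ?_, ?_, ?_, ?_, ?_⟩
  · simp only [List.map_append]
    rw [List.nodup_append, List.nodup_append]
    refine ⟨hz1, ⟨hw1.1, hw1.2.1.2, fun a ha b hb => hw1.2.2 a ha b (List.mem_cons_of_mem _ hb)⟩, ?_⟩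
    rintro a ha b hb rfl
    have := hd a (e1 a ha) (e3 a (by
      rw [List.mem_append] at hb
      rw [List.mem_append, List.mem_cons]
      tauto))
    rw [this] at ha
    exact n1 ha
  · simp only [List.map_append]
    rw [List.nodup_append, List.nodup_append]
    refine ⟨hz2, ⟨hw2.1, hw2.2.1.2, fun a ha b hb => hw2.2.2 a ha b (List.mem_cons_of_mem _ hb)⟩, ?_⟩
    rintro a ha b hb rfl
    have := hd a (e2 a ha) (e4 a (by
      rw [List.mem_append] at hb
      rw [List.mem_append, List.mem_cons]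
      tauto))
    rw [this] at ha
    exact n2 ha
  · ext x
    simp only [st, List.map_append, List.map_cons, mem_ofPred_eq, mem_sdiff, mem_union,
      mem_singleton_iff, List.mem_append, List.mem_cons]
    constructor
    · rintro (hx | hx | hx)
      · exact ⟨Or.inl hx, fun e => n1 (e ▸ hx)⟩
      · exact ⟨Or.inr (Or.inl hx), fun e => n3 (e ▸ hx)⟩
      · exact ⟨Or.inr (Or.inr (Or.inr hx)), fun e => n4 (e ▸ hx)⟩
    · tauto
  · ext x
    simp only [st, List.map_append, List.map_cons, mem_ofPred_eq, mem_sdiff, mem_union,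
      mem_singleton_iff, List.mem_append, List.mem_cons]
    constructor
    · rintro (hx | hx | hx)
      · exact ⟨Or.inl hx, fun e => n2 (e ▸ hx)⟩
      · exact ⟨Or.inr (Or.inl hx), fun e => n5 (e ▸ hx)⟩
      · exact ⟨Or.inr (Or.inr (Or.inr hx)), fun e => n6 (e ▸ hx)⟩
    · tauto
  · intro s t hst
    -- the three kinds of splits
    have main : ∀ (z1 z2 w1 w2 : List (α × α)), z = z1 ++ z2 → y ++ (p, p) :: u = w1 ++ w2 →
        (∀ x, x ∈ t.map Prod.fst ↔ (x ∈ z2.map Prod.fst ∨ x ∈ w2.map Prod.fst) ∧ x ≠ p) →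
        (∀ x, x ∈ t.map Prod.snd ↔ (x ∈ z2.map Prod.snd ∨ x ∈ w2.map Prod.snd) ∧ x ≠ p) →
        (∀ x, x ∈ s.map Prod.fst ↔ (x ∈ z1.map Prod.fst ∨ x ∈ w1.map Prod.fst) ∧ x ≠ p) →
        (∀ x, x ∈ s.map Prod.snd ↔ (x ∈ z1.map Prod.snd ∨ x ∈ w1.map Prod.snd) ∧ x ≠ p) →
        M.IsBase (st (t.map Prod.fst ++ s.map Prod.snd)) ∧
        M.IsBase (st (t.map Prod.snd ++ s.map Prod.fst)) := by
      intro z1 z2 w1 w2 hz hw t1 t2 s1 s2
      have g1 := hzG z1 z2 hz
      have g2 := hwG w1 w2 hw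
      have hpw : (p, p) ∈ w1 ∨ (p, p) ∈ w2 := by
        rw [← List.mem_append, ← hw]; simp
      have q1 : p ∉ z2.map Prod.fst ++ z1.map Prod.snd := by
        intro hx
        rw [List.mem_append] at hx
        rcases hx with hx | hx
        · exact n1 (by rw [hz, List.map_append, List.mem_append]; exact Or.inr hx)
        · exact n2 (by rw [hz, List.map_append, List.mem_append]; exact Or.inl hx)
      have q2 : p ∉ z2.map Prod.snd ++ z1.map Prod.fst := by
        intro hx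
        rw [List.mem_append] at hx
        rcases hx with hx | hx
        · exact n2 (by rw [hz, List.map_append, List.mem_append]; exact Or.inr hx)
        · exact n1 (by rw [hz, List.map_append, List.mem_append]; exact Or.inl hx)
      have q3 : p ∈ w2.map Prod.fst ++ w1.map Prod.snd := by
        rw [List.mem_append]
        rcases hpw with hx | hx
        · exact Or.inr (List.mem_map_of_mem (f := Prod.snd) hx)
        · exact Or.inl (List.mem_map_of_mem (f := Prod.fst) hx)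
      have q4 : p ∈ w2.map Prod.snd ++ w1.map Prod.fst := by
        rw [List.mem_append]
        rcases hpw with hx | hx
        · exact Or.inr (List.mem_map_of_mem (f := Prod.fst) hx)
        · exact Or.inl (List.mem_map_of_mem (f := Prod.snd) hx)
      refine ⟨h.mk g1.1 g2.1 ⟨fun h => absurd h q1, fun h => absurd q3 h⟩ fun x => ?_,
        h.mk g1.2 g2.2 ⟨fun h => absurd h q2, fun h => absurd q4 h⟩ fun x => ?_⟩
      · rw [List.mem_append, t1, s2, List.mem_append, List.mem_append]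
        exact prop1 _ _ _ _ _
      · rw [List.mem_append, t2, s1, List.mem_append, List.mem_append]
        exact prop1 _ _ _ _ _
    have ne : ∀ {l : List α} {x : α}, p ∉ l → x ∈ l → x ≠ p := fun hl hx e => hl (e ▸ hx)
    rw [List.append_eq_append_iff] at hst
    rcases hst with ⟨a, rfl, hst⟩ | ⟨c, rfl, rfl⟩
    · -- s = z ++ a, y ++ u = a ++ t
      rw [List.append_eq_append_iff] at hst
      rcases hst with ⟨b, rfl, rfl⟩ | ⟨b, rfl, rfl⟩
      · -- a = y ++ b, u = b ++ t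
        refine main z [] (y ++ (p, p) :: b) t (by simp) (by simp) ?_ ?_ ?_ ?_ <;> intro x <;>
          simp only [List.map_append, List.map_cons, List.map_nil, List.mem_append, List.mem_cons,
            List.not_mem_nil, false_or, or_false] at n4 n6 ⊢ <;> constructor <;> intro hx
        · exact ⟨hx, fun e => n4 (Or.inr (e ▸ hx))⟩
        · exact hx.1
        · exact ⟨hx, fun e => n6 (Or.inr (e ▸ hx))⟩
        · exact hx.1
        · rcases hx with hx | hx | hx
          · exact ⟨Or.inl hx, ne n1 hx⟩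
          · exact ⟨Or.inr (Or.inl hx), ne n3 hx⟩
          · exact ⟨Or.inr (Or.inr (Or.inr hx)), fun e => n4 (Or.inl (e ▸ hx))⟩
        · tauto
        · rcases hx with hx | hx | hx
          · exact ⟨Or.inl hx, ne n2 hx⟩
          · exact ⟨Or.inr (Or.inl hx), ne n5 hx⟩
          · exact ⟨Or.inr (Or.inr (Or.inr hx)), fun e => n6 (Or.inl (e ▸ hx))⟩
        · tauto
      · -- y = a ++ b, t = b ++ u
        refine main z [] a (b ++ (p, p) :: u) (by simp) (by simp) ?_ ?_ ?_ ?_ <;> intro x <;>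
          simp only [List.map_append, List.map_cons, List.map_nil, List.mem_append, List.mem_cons,
            List.not_mem_nil, false_or, or_false] at n3 n5 ⊢ <;> constructor <;> intro hx
        · rcases hx with hx | hx
          · exact ⟨Or.inl hx, fun e => n3 (Or.inr (e ▸ hx))⟩
          · exact ⟨Or.inr (Or.inr hx), ne n4 hx⟩
        · tauto
        · rcases hx with hx | hx
          · exact ⟨Or.inl hx, fun e => n5 (Or.inr (e ▸ hx))⟩
          · exact ⟨Or.inr (Or.inr hx), ne n6 hx⟩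
        · tauto
        · rcases hx with hx | hx
          · exact ⟨Or.inl hx, ne n1 hx⟩
          · exact ⟨Or.inr hx, fun e => n3 (Or.inl (e ▸ hx))⟩
        · tauto
        · rcases hx with hx | hx
          · exact ⟨Or.inl hx, ne n2 hx⟩
          · exact ⟨Or.inr hx, fun e => n5 (Or.inl (e ▸ hx))⟩
        · tauto
    · -- z = s ++ c, t = c ++ (y ++ u)
      refine main s c [] (y ++ (p, p) :: u) rfl (by simp) ?_ ?_ ?_ ?_ <;> intro x <;>
        simp only [List.map_append, List.map_cons, List.map_nil, List.mem_append, List.mem_cons,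
          List.not_mem_nil, false_or, or_false] at n1 n2 ⊢ <;> constructor <;> intro hx
      · rcases hx with hx | hx | hx
        · exact ⟨Or.inl hx, fun e => n1 (Or.inr (e ▸ hx))⟩
        · exact ⟨Or.inr (Or.inl hx), ne n3 hx⟩
        · exact ⟨Or.inr (Or.inr (Or.inr hx)), ne n4 hx⟩
      · tauto
      · rcases hx with hx | hx | hx
        · exact ⟨Or.inl hx, fun e => n2 (Or.inr (e ▸ hx))⟩
        · exact ⟨Or.inr (Or.inl hx), ne n5 hx⟩
        · exact ⟨Or.inr (Or.inr (Or.inr hx)), ne n6 hx⟩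
      · tauto
      · exact ⟨hx, fun e => n1 (Or.inl (e ▸ hx))⟩
      · exact hx.1
      · exact ⟨hx, fun e => n2 (Or.inl (e ▸ hx))⟩
      · exact hx.1

end Pool.Agent.H90.GB
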